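import Mathlib

/-!
# Two-level symbol-count families of words do not always have minimal deletion shadow

Words of length `n + 1` over the alphabet `Fin r` (the letter `x : Fin r` stands for `x + 1`).
For `r = s = 3`, words of length `4`, `k = 0` and `ℓ = 1`, the family `F_{s,k,ℓ}` has `32` words and
a deletion shadow of size `17`, while the family of all words `a b c d` with `a, b ≠ 1`
and at most one of the letters `c, d` equal to `1`, has `32` words and a shadow of size `16`.
-/

set_option autoImplicit false

namespace Pool.Agent.Results.MP_26672a_co.TwoLevelFails

/-- The words of length `n` over an alphabet with `r` letters. -/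
abbrev Word (r n : ℕ) : Type := Fin n → Fin r

/-- The word obtained from `w` by deleting the letter in position `i`. -/
def deleteAt {r n : ℕ} (w : Word r (n + 1)) (i : Fin (n + 1)) : Word r n :=
  fun j => w (i.succAbove j)

/-- The deletion shadow of a family of words: all words obtained by deleting one letter from a
member of the family. -/
def shadow {r n : ℕ} (F : Finset (Word r (n + 1))) : Finset (Word r n) :=
  F.biUnion fun w => Finset.univ.image (deleteAt w)

/-- `F` has minimal deletion shadow given its size. -/
def HasMinimalShadow {r n : ℕ} (F : Finset (Word r (n + 1))) : Prop :=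
  ∀ G : Finset (Word r (n + 1)), G.card = F.card → (shadow F).card ≤ (shadow G).card

/-- the number of occurrences of the `x`-th letter (`x = 1, …, r`) in the word `w`; the `x`-th
letter is the element of `Fin r` with value `x - 1` -/
def count {r n : ℕ} (x : ℕ) (w : Word r n) : ℕ :=
  (Finset.univ.filter fun j => (w j : ℕ) + 1 = x).card

/-- The family `F_{s,k,ℓ}`: the words of length `n` over the first `s` letters in which either the
`s`-th letter occurs at most `k` times, or the `s`-th letter occurs exactly `k + 1` times and the
`(s-1)`-st letter occurs at most `ℓ` times. -/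
def family (r n s k l : ℕ) : Finset (Word r n) :=
  Finset.univ.filter fun w => (∀ j, (w j : ℕ) + 1 ≤ s) ∧
    (count s w ≤ k ∨ (count s w = k + 1 ∧ count (s - 1) w ≤ l))

/-- the competitor: the words over three letters whose first two letters are not the first letter
`1` of the alphabet and which have at most one letter `1` -/
def competitor : Finset (Word 3 4) :=
  Finset.univ.filter fun w => w 0 ≠ 0 ∧ w 1 ≠ 0 ∧ (w 2 ≠ 0 ∨ w 3 ≠ 0)

theorem result : ¬ ∀ (r n : ℕ), 2 ≤ r → 1 ≤ n →
    ∀ s k l : ℕ, 2 ≤ s → s ≤ r → k ≤ n → l + k ≤ n → HasMinimalShadow (family r (n + 1) s k l) := by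
  intro h
  have h1 := h 3 3 (by norm_num) (by norm_num) 3 0 1 (by norm_num) (by norm_num) (by norm_num)
    (by norm_num) competitor (by decide +kernel)
  revert h1
  decide +kernel

end Pool.Agent.Results.MP_26672a_co.TwoLevelFails
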